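import Mathlib
import Pool.Agent.H87.AomotoBridge

set_option autoImplicit false

namespace Pool.Agent.Results.MP_92491b_gt.AllButFiveInRankThree

open Pool.Agent.H87 Pool.Agent.H87.Aomoto

/-- For every central complex hyperplane arrangement of rank at least `3` (given by pairwise
non-proportional linear forms `f 0, ..., f (n - 1)` on `ℂ ^ ℓ`) and every prime `p > 3`, the
Aomoto-Betti number `β_p` vanishes, except possibly when `p = 5` and the rank is exactly `3`. -/
theorem result (ℓ n : ℕ) (f : Fin n → (Fin ℓ → ℂ))
    (hf : ∀ i j : Fin n, i ≠ j → LinearIndependent ℂ ![f i, f j])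
    (hrank : 3 ≤ Module.finrank ℂ (Submodule.span ℂ (Set.range f)))
    (p : ℕ) (hp : p.Prime) (hp3 : 3 < p)
    (hfive : p = 5 → 4 ≤ Module.finrank ℂ (Submodule.span ℂ (Set.range f))) :
    aomotoBetti (ZMod p) f = 0 := by
  have : Fact p.Prime := ⟨hp⟩
  apply betti_eq_zero_of_const hp f
  intro τ hτ
  have hloc := localCond_of_cocycle f hf τ hτ
  by_cases h5 : p = 5
  · exact const_of_rank_four f hf τ hloc (hfive h5) (by omega)
  · have h4 : p ≠ 4 := by
      rintro rfl
      exact absurd hp (by norm_num)
    have h6 : p ≠ 6 := by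
      rintro rfl
      exact absurd hp (by norm_num)
    exact const_of_seven f hf τ hloc hrank (by omega)

end Pool.Agent.Results.MP_92491b_gt.AllButFiveInRankThree
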